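import Pool.Agent.N549.HG.Stm3

/-!
# HG/TP: torus packings by small balls nearly as dense as packings of the space
-/

set_option autoImplicit false

namespace Pool.Agent.N27.HG

open MeasureTheory Metric Filter Topology
open Pool.Agent.N549.HG (Torus sqd ballVol S_TP)
open Pool.Agent.H818R2 (rho optDensity upperDensity body IsPacking)
open scoped ENNReal NNReal

/-- Euclidean space -/
abbrev EE (n : ℕ) : Type := EuclideanSpace ℝ (Fin n)

/-! ### Volumes -/

theorem vol_ball (n : ℕ) (x : EE n) (s : ℝ) :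
    volume (ball x s) = ENNReal.ofReal (ballVol n s) := by
  unfold ballVol
  rw [ENNReal.ofReal_toReal measure_ball_lt_top.ne, ← Measure.addHaar_ball_center volume x s]

theorem ballVol_eq (n : ℕ) {s : ℝ} (hs : 0 < s) : ballVol n s = s ^ n * ballVol n 1 := by
  unfold ballVol
  rw [Measure.addHaar_ball_of_pos volume (0 : EE n) hs, finrank_euclideanSpace_fin,
    ENNReal.toReal_mul, ENNReal.toReal_ofReal (by positivity)]

theorem ballVol_pos (n : ℕ) {s : ℝ} (hs : 0 < s) : 0 < ballVol n s :=
  ENNReal.toReal_pos (measure_ball_pos volume _ hs).ne' measure_ball_lt_top.ne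

theorem vol_box (n : ℕ) (x : EE n) (l : ℝ) :
    volume {t : EE n | ∀ i, t i ≤ x i ∧ x i < t i + l} = ENNReal.ofReal l ^ n := by
  have h := (PiLp.volume_preserving_ofLp (Fin n)).measure_preimage
    (s := Set.pi Set.univ fun i => Set.Ioc (x i - l) (x i))
    (MeasurableSet.univ_pi fun i => measurableSet_Ioc).nullMeasurableSet
  have e : {t : EE n | ∀ i, t i ≤ x i ∧ x i < t i + l} =
      (@WithLp.ofLp 2 (Fin n → ℝ)) ⁻¹' (Set.pi Set.univ fun i => Set.Ioc (x i - l) (x i)) := by
    ext t
    simp only [Set.mem_ofPred_eq, Set.mem_preimage, Set.mem_pi, Set.mem_univ, forall_true_left,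
      Set.mem_Ioc]
    refine forall_congr' fun i => ?_
    constructor
    · rintro ⟨h1, h2⟩; exact ⟨by linarith, h1⟩
    · rintro ⟨h1, h2⟩; exact ⟨h2, by linarith⟩
  rw [e, h, Real.volume_pi_Ioc]
  simp

theorem meas_box (n : ℕ) (x : EE n) (l : ℝ) :
    MeasurableSet {t : EE n | ∀ i, t i ≤ x i ∧ x i < t i + l} := by
  have e : {t : EE n | ∀ i, t i ≤ x i ∧ x i < t i + l} =
      ⋂ i, ({t : EE n | t i ≤ x i} ∩ {t : EE n | x i < t i + l}) := by
    ext t
    simp [Set.mem_iInter]
  rw [e]
  apply MeasurableSet.iInter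
  intro i
  apply MeasurableSet.inter
  · exact measurableSet_le (by fun_prop) measurable_const
  · exact measurableSet_lt measurable_const (by fun_prop)

/-! ### Finitely many centres in a ball -/

theorem fin_centres {n : ℕ} {X : Set (EE n)} {r' : ℝ} (hP : IsPacking X r') (R : ℝ) :
    (X ∩ ball 0 R).Finite := by
  have h1 := Measure.finite_const_le_meas_of_disjoint_iUnion (ι := ↥(X ∩ ball (0 : EE n) R))
    (volume : Measure (EE n)) (ε := ENNReal.ofReal (ballVol n r'))
    (ENNReal.ofReal_pos.2 (ballVol_pos n hP.1)) (As := fun x => ball (x : EE n) r')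
    (fun x => measurableSet_ball) (by
      intro x y hxy
      exact hP.2 x.2.1 y.2.1 (fun h => hxy (Subtype.ext h))) (by
      apply ne_top_of_le_ne_top (measure_ball_lt_top (μ := (volume : Measure (EE n))) (x := (0 : EE n)) (r := R + r')).ne
      apply measure_mono
      apply Set.iUnion_subset
      rintro ⟨x, hx⟩
      apply ball_subset_ball'
      have := hx.2
      rw [mem_ball] at this
      linarith)
  have h2 : {i : ↥(X ∩ ball (0 : EE n) R) |
      ENNReal.ofReal (ballVol n r') ≤ volume (ball (i : EE n) r')} = Set.univ := by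
    ext i
    simp [vol_ball]
  rw [h2, Set.finite_univ_iff] at h1
  exact Set.toFinite _

/-! ### Averaging -/

open Classical in
/-- the centres in a cube -/
noncomputable def cube {n : ℕ} (S : Finset (EE n)) (l : ℝ) (t : EE n) : Finset (EE n) :=
  S.filter fun x => ∀ i, t i ≤ x i ∧ x i < t i + l

theorem norm_le_of_box {n : ℕ} {l : ℝ} (hl : 0 ≤ l) {t x : EE n}
    (h : ∀ i, t i ≤ x i ∧ x i < t i + l) : ‖x - t‖ ≤ n * l := by
  rw [EuclideanSpace.norm_eq]
  have h1 : ∑ i, ‖(x - t) i‖ ^ 2 ≤ (n * l) ^ 2 := by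
    have h2 : ∀ i, ‖(x - t) i‖ ≤ l := by
      intro i
      rw [PiLp.sub_apply, Real.norm_eq_abs, abs_of_nonneg (by linarith [(h i).1])]
      linarith [(h i).2]
    calc ∑ i, ‖(x - t) i‖ ^ 2 ≤ ∑ i : Fin n, l ^ 2 :=
          Finset.sum_le_sum fun i _ => pow_le_pow_left₀ (norm_nonneg _) (h2 i) 2
      _ = n * l ^ 2 := by simp
      _ ≤ (n * l) ^ 2 := by
          rw [mul_pow]
          apply mul_le_mul_of_nonneg_right _ (by positivity)
          rcases Nat.eq_zero_or_pos n with h3 | h3
          · rw [h3]; simp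
          · have : (1 : ℝ) ≤ n := by exact_mod_cast h3
            nlinarith
  calc Real.sqrt (∑ i, ‖(x - t) i‖ ^ 2) ≤ Real.sqrt ((n * l) ^ 2) := Real.sqrt_le_sqrt h1
    _ = n * l := Real.sqrt_sq (by positivity)

theorem averaging {n : ℕ} (S : Finset (EE n)) {l R : ℝ} (hl : 0 < l)
    (hS : ∀ x ∈ S, x ∈ ball (0 : EE n) R) : ∃ t : EE n,
    (S.card : ℝ) * l ^ n ≤ (cube S l t).card * ballVol n (R + n * l) := by
  classical
  have hfin : (Set.range fun t : EE n => (cube S l t).card).Finite := by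
    apply (Set.finite_Iic S.card).subset
    rintro _ ⟨t, rfl⟩
    exact Finset.card_filter_le _ _
  obtain ⟨M, hM, hmax⟩ := hfin.exists_maximalFor id _ (Set.range_nonempty _)
  obtain ⟨t, ht⟩ := hM
  have hmax' : ∀ s : EE n, (cube S l s).card ≤ M := by
    intro s
    by_contra hcon
    push Not at hcon
    have := hmax (Set.mem_range_self s) hcon.le
    simp only [id] at this
    omega
  refine ⟨t, ?_⟩
  simp only at ht
  rw [ht]
  have h1 : ∑ x ∈ S, volume {t : EE n | ∀ i, t i ≤ x i ∧ x i < t i + l} =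
      (S.card : ℝ≥0∞) * ENNReal.ofReal l ^ n := by
    simp only [vol_box, Finset.sum_const, nsmul_eq_mul]
  have h2 : ∑ x ∈ S, volume {t : EE n | ∀ i, t i ≤ x i ∧ x i < t i + l} =
      ∫⁻ t : EE n, ∑ x ∈ S, Set.indicator {t : EE n | ∀ i, t i ≤ x i ∧ x i < t i + l}
        (fun _ => (1 : ℝ≥0∞)) t := by
    rw [lintegral_finsetSum]
    · refine Finset.sum_congr rfl fun x _ => ?_
      rw [lintegral_indicator (meas_box n x l)]
      simp
    · intro x _
      exact measurable_const.indicator (meas_box n x l)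
  have h3 : ∀ t : EE n, ∑ x ∈ S, Set.indicator {t : EE n | ∀ i, t i ≤ x i ∧ x i < t i + l}
        (fun _ => (1 : ℝ≥0∞)) t ≤
      Set.indicator (ball (0 : EE n) (R + n * l)) (fun _ => (M : ℝ≥0∞)) t := by
    intro t
    have e : ∑ x ∈ S, Set.indicator {t : EE n | ∀ i, t i ≤ x i ∧ x i < t i + l}
        (fun _ => (1 : ℝ≥0∞)) t = ((cube S l t).card : ℝ≥0∞) := by
      unfold cube
      rw [Finset.card_filter]
      push_cast
      refine Finset.sum_congr rfl fun x _ => ?_
      simp only [Set.indicator_apply, Set.mem_ofPred_eq]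
    rw [e]
    by_cases hc : (cube S l t).card = 0
    · rw [hc]; simp
    · have hne : (cube S l t).Nonempty := Finset.card_pos.1 (Nat.pos_of_ne_zero hc)
      obtain ⟨x, hx⟩ := hne
      unfold cube at hx
      rw [Finset.mem_filter] at hx
      have h4 := norm_le_of_box hl.le hx.2
      have h5 := hS x hx.1
      rw [mem_ball_zero_iff] at h5
      have h6 : t ∈ ball (0 : EE n) (R + n * l) := by
        rw [mem_ball_zero_iff]
        have h7 : ‖t‖ ≤ ‖x‖ + ‖x - t‖ := by
          have := norm_sub_le x (x - t)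
          rwa [sub_sub_cancel] at this
        linarith
      rw [Set.indicator_of_mem h6]
      exact_mod_cast hmax' t
  have h4 : (S.card : ℝ≥0∞) * ENNReal.ofReal l ^ n ≤
      M * ENNReal.ofReal (ballVol n (R + n * l)) := by
    rw [← h1, h2]
    refine (lintegral_mono h3).trans ?_
    rw [lintegral_indicator measurableSet_ball, setLIntegral_const, vol_ball]
  have h5 := ENNReal.toReal_mono (by
    apply ENNReal.mul_ne_top (ENNReal.natCast_ne_top M) ENNReal.ofReal_ne_top) h4
  rw [ENNReal.toReal_mul, ENNReal.toReal_mul, ENNReal.toReal_pow, ENNReal.toReal_natCast,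
    ENNReal.toReal_natCast, ENNReal.toReal_ofReal hl.le, ENNReal.toReal_ofReal (by
      unfold ballVol; exact ENNReal.toReal_nonneg)] at h5
  exact h5

/-! ### Many centres in a cube -/

theorem many {n : ℕ} {X : Set (EE n)} {r' c2 c3 : ℝ} (hP : IsPacking X r')
    (_hc3 : 0 < c3) (hc : c3 < c2) (hd : c2 < upperDensity X r') {l : ℝ} (hl : 0 < l) :
    ∃ (t : EE n) (T : Finset (EE n)), (∀ x ∈ T, x ∈ X ∧ ∀ i, t i ≤ x i ∧ x i < t i + l) ∧
      c3 * l ^ n ≤ T.card * ballVol n r' := by
  classical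
  have hr' := hP.1
  have hfr : ∃ᶠ R in atTop, c2 < volume.real (ball (0 : EE n) R ∩ body X r') /
      volume.real (ball (0 : EE n) R) := by
    apply frequently_lt_of_lt_limsup _ hd
    apply IsBoundedUnder.isCoboundedUnder_le
    refine ⟨0, ?_⟩
    rw [eventually_map]
    exact Eventually.of_forall fun R => div_nonneg measureReal_nonneg measureReal_nonneg
  -- the shift
  set s : ℝ := r' + n * l with hs
  have hs0 : 0 < s := by positivity
  have hlim : Tendsto (fun R : ℝ => c3 * (1 + s / R) ^ n) atTop (𝓝 (c3 * (1 + 0) ^ n)) := by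
    apply Tendsto.const_mul
    apply Tendsto.pow
    exact tendsto_const_nhds.add (tendsto_const_nhds.div_atTop tendsto_id)
  have hev : ∀ᶠ R : ℝ in atTop, c3 * (1 + s / R) ^ n < c2 := by
    apply hlim.eventually_lt_const
    simpa using hc
  obtain ⟨R, hR, hR1, hR2⟩ := (hfr.and_eventually (hev.and (eventually_gt_atTop 0))).exists
  -- the centres
  have hfin := fin_centres hP (R + r')
  set S := hfin.toFinset with hSdef
  have hSm : ∀ x, x ∈ S ↔ x ∈ X ∧ x ∈ ball (0 : EE n) (R + r') := fun x => by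
    rw [hSdef, Set.Finite.mem_toFinset]; rfl
  have hcov : ball (0 : EE n) R ∩ body X r' ⊆ ⋃ x ∈ S, ball x r' := by
    rintro y ⟨hy1, hy2⟩
    unfold body at hy2
    simp only [Set.mem_iUnion] at hy2 ⊢
    obtain ⟨x, hx, hy⟩ := hy2
    refine ⟨x, (hSm x).2 ⟨hx, ?_⟩, hy⟩
    rw [mem_ball_zero_iff] at hy1 ⊢
    rw [mem_ball, dist_eq_norm] at hy
    have : ‖x‖ ≤ ‖y‖ + ‖y - x‖ := by
      have := norm_sub_le y (y - x)
      rwa [sub_sub_cancel] at this
    linarith
  have hvol : volume.real (ball (0 : EE n) R ∩ body X r') ≤ S.card * ballVol n r' := by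
    have h1 : volume (ball (0 : EE n) R ∩ body X r') ≤
        ENNReal.ofReal (S.card * ballVol n r') := by
      refine (measure_mono hcov).trans ((measure_biUnion_finset_le _ _).trans ?_)
      simp only [vol_ball, Finset.sum_const, nsmul_eq_mul]
      rw [ENNReal.ofReal_mul (Nat.cast_nonneg _), ENNReal.ofReal_natCast]
    unfold Measure.real
    refine (ENNReal.toReal_mono ENNReal.ofReal_ne_top h1).trans (le_of_eq ?_)
    exact ENNReal.toReal_ofReal (mul_nonneg (Nat.cast_nonneg _) (ballVol_pos n hr').le)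
  have hVR : volume.real (ball (0 : EE n) R) = ballVol n R := rfl
  have hVR0 := ballVol_pos n hR2
  rw [hVR, lt_div_iff₀ hVR0] at hR
  obtain ⟨t, ht⟩ := averaging S hl (fun x hx => ((hSm x).1 hx).2)
  refine ⟨t, cube S l t, ?_, ?_⟩
  · intro x hx
    unfold cube at hx
    rw [Finset.mem_filter] at hx
    exact ⟨((hSm x).1 hx.1).1, hx.2⟩
  · have e1 : R + r' + n * l = R + s := by rw [hs]; ring
    rw [e1, ballVol_eq n (by positivity : 0 < R + s)] at ht
    rw [ballVol_eq n hR2] at hR
    have hv1 := ballVol_pos n (one_pos)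
    have hV' := ballVol_pos n hr'
    have e2 : (R + s) ^ n = R ^ n * (1 + s / R) ^ n := by
      rw [← mul_pow]
      congr 1
      field_simp
    rw [e2] at ht
    set P := (1 + s / R) ^ n with hPd
    have hP0 : 0 < P := by positivity
    have hRn : 0 < R ^ n := by positivity
    have hln : 0 < l ^ n := by positivity
    set V1 := ballVol n 1 with hV1
    set V' := ballVol n r' with hV'd
    set m := ((cube S l t).card : ℝ) with hm
    -- c3 P < c2, c2 R^n V1 < |S| V', |S| l^n ≤ m R^n P V1
    have h1 : c2 * (R ^ n * V1) * l ^ n ≤ m * (R ^ n * P * V1) * V' := by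
      calc c2 * (R ^ n * V1) * l ^ n ≤ (S.card * V') * l ^ n :=
            mul_le_mul_of_nonneg_right (hR.le.trans hvol) hln.le
        _ = (S.card * l ^ n) * V' := by ring
        _ ≤ _ := mul_le_mul_of_nonneg_right ht hV'.le
    have h2 : c3 * P * (R ^ n * V1) * l ^ n ≤ c2 * (R ^ n * V1) * l ^ n := by
      apply mul_le_mul_of_nonneg_right _ hln.le
      exact mul_le_mul_of_nonneg_right hR1.le (by positivity)
    have h3 : (c3 * l ^ n) * (P * R ^ n * V1) ≤ (m * V') * (P * R ^ n * V1) := by
      calc (c3 * l ^ n) * (P * R ^ n * V1) = c3 * P * (R ^ n * V1) * l ^ n := by ring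
        _ ≤ _ := h2.trans h1
        _ = _ := by ring
    exact le_of_mul_le_mul_right h3 (by positivity)

/-! ### The torus -/

theorem uac_norm {δ : ℝ} (h : |δ| < 1) : (|δ| ≤ 1 / 2 ∧ ‖(δ : UnitAddCircle)‖ = |δ|) ∨
    ‖(δ : UnitAddCircle)‖ = 1 - |δ| := by
  rcases le_or_gt |δ| (1 / 2) with h1 | h1
  · left
    refine ⟨h1, ?_⟩
    rw [AddCircle.norm_coe_eq_abs_iff _ one_ne_zero]
    simpa using h1
  · right
    rcases le_or_gt 0 δ with h2 | h2
    · rw [abs_of_nonneg h2] at h h1 ⊢
      have e : (δ : UnitAddCircle) = ((δ - 1 : ℝ) : UnitAddCircle) := by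
        rw [AddCircle.coe_sub, AddCircle.coe_period, sub_zero]
      rw [e, (AddCircle.norm_coe_eq_abs_iff (p := 1) (x := δ - 1) one_ne_zero).2 (by
        rw [abs_of_neg (by linarith), abs_one]; linarith), abs_of_neg (by linarith)]
      ring
    · rw [abs_of_neg h2] at h h1 ⊢
      have e : (δ : UnitAddCircle) = ((δ + 1 : ℝ) : UnitAddCircle) := by
        rw [AddCircle.coe_add, AddCircle.coe_period, add_zero]
      rw [e, (AddCircle.norm_coe_eq_abs_iff (p := 1) (x := δ + 1) one_ne_zero).2 (by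
        rw [abs_of_pos (by linarith), abs_one]; linarith), abs_of_pos (by linarith)]
      ring

theorem sqd_ge {n : ℕ} {r l L' : ℝ} (hr : 0 < r) (hL : 0 < L')
    (hl : l = L' * (1 - r)) {t x y : EE n} (hx : ∀ i, t i ≤ x i ∧ x i < t i + l)
    (hy : ∀ i, t i ≤ y i ∧ y i < t i + l) (hxy : r * L' ≤ dist x y) :
    r ^ 2 ≤ sqd (fun i => (((x i - t i) / L' : ℝ) : UnitAddCircle))
      (fun i => (((y i - t i) / L' : ℝ) : UnitAddCircle)) := by
  unfold sqd
  have e : ∀ i, (((x i - t i) / L' : ℝ) : UnitAddCircle) - (((y i - t i) / L' : ℝ) : UnitAddCircle) =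
      (((x i - y i) / L' : ℝ) : UnitAddCircle) := by
    intro i
    rw [← AddCircle.coe_sub]
    congr 1
    ring
  simp only [e]
  have hb : ∀ i, |(x i - y i) / L'| < 1 - r := by
    intro i
    rw [abs_div, abs_of_pos hL, div_lt_iff₀ hL, abs_lt]
    have h1 := hx i
    have h2 := hy i
    rw [hl] at h1 h2
    constructor <;> nlinarith [h1.1, h1.2, h2.1, h2.2]
  by_cases hall : ∀ i, |(x i - y i) / L'| ≤ 1 / 2
  · have h1 : ∀ i, ‖(((x i - y i) / L' : ℝ) : UnitAddCircle)‖ = |(x i - y i) / L'| := by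
      intro i
      rw [AddCircle.norm_coe_eq_abs_iff _ one_ne_zero]
      simpa using hall i
    simp only [h1, sq_abs]
    have h2 : ∑ i, ((x i - y i) / L') ^ 2 = dist x y ^ 2 / L' ^ 2 := by
      rw [EuclideanSpace.dist_eq, Real.sq_sqrt (by positivity), Finset.sum_div]
      refine Finset.sum_congr rfl fun i _ => ?_
      rw [div_pow, Real.dist_eq, sq_abs]
    rw [h2, le_div_iff₀ (by positivity), ← mul_pow]
    exact pow_le_pow_left₀ (by positivity) hxy 2
  · push Not at hall
    obtain ⟨i, hi⟩ := hall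
    have h1 : r ≤ ‖(((x i - y i) / L' : ℝ) : UnitAddCircle)‖ := by
      rcases uac_norm (lt_trans (hb i) (by linarith)) with h2 | h2
      · linarith [h2.1]
      · rw [h2]
        linarith [hb i]
    calc r ^ 2 ≤ ‖(((x i - y i) / L' : ℝ) : UnitAddCircle)‖ ^ 2 :=
          pow_le_pow_left₀ hr.le h1 2
      _ ≤ _ := Finset.single_le_sum
          (f := fun i => ‖(((x i - y i) / L' : ℝ) : UnitAddCircle)‖ ^ 2)
          (fun i _ => by positivity) (Finset.mem_univ i)

/-- HG/TP -/
theorem tp : S_TP := by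
  intro n hn c hc
  rcases le_or_gt c 0 with hc0 | hc0
  · refine ⟨1, one_pos, fun r _ _ => ⟨0, fun i => i.elim0, fun i => i.elim0, ?_⟩⟩
    simpa using hc0
  · unfold rho optDensity at hc
    have hne : {δ | ∃ (X : Set (EE n)) (r : ℝ), IsPacking X r ∧ upperDensity X r = δ}.Nonempty :=
      ⟨_, ∅, 1, ⟨one_pos, by simp⟩, rfl⟩
    obtain ⟨_, ⟨X, r', hP, rfl⟩, hd⟩ := exists_lt_of_lt_csSup hne hc
    obtain ⟨c2, hc2, hc2'⟩ := exists_between hd
    obtain ⟨c3, hc3, hc3'⟩ := exists_between hc2
    have hc30 : 0 < c3 := hc0.trans hc3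
    have hn0 : (0 : ℝ) < n := by exact_mod_cast hn
    have hr' := hP.1
    refine ⟨min (1 / 2) ((c3 - c) / (n * c3)), lt_min (by norm_num)
      (div_pos (by linarith) (by positivity)), fun r hr hr0 => ?_⟩
    have hr1 : r ≤ 1 / 2 := hr0.trans (min_le_left _ _)
    have hr2 : r ≤ (c3 - c) / (n * c3) := hr0.trans (min_le_right _ _)
    rw [le_div_iff₀ (by positivity)] at hr2
    set L' : ℝ := 2 * r' / r with hL'
    have hL0 : 0 < L' := by positivity
    have hrL : r * L' = 2 * r' := by rw [hL']; field_simp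
    obtain ⟨t, T, hT, hcard⟩ := many hP hc30 hc3' hc2' (l := L' * (1 - r))
      (mul_pos hL0 (by linarith))
    refine ⟨T.card, fun j i => ((((T.equivFin.symm j : EE n) i - t i) / L' : ℝ) : UnitAddCircle),
      ?_, ?_⟩
    · intro i j hij
      have hi := hT _ (T.equivFin.symm i).2
      have hj := hT _ (T.equivFin.symm j).2
      refine sqd_ge hr hL0 rfl hi.2 hj.2 ?_
      rw [hrL]
      have h1 : (T.equivFin.symm i : EE n) ≠ (T.equivFin.symm j : EE n) := by
        intro h
        exact hij (T.equivFin.symm.injective (Subtype.ext h))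
      have h2 := hP.2 hi.1 hj.1 h1
      have h3 := (disjoint_ball_ball_iff hr' hr').1 h2
      linarith
    · have e1 : ballVol n (r / 2) = ballVol n r' / L' ^ n := by
        rw [ballVol_eq n (by positivity : 0 < r / 2), ballVol_eq n hr', hL', div_pow, div_pow,
          mul_pow]
        field_simp
      rw [mul_pow] at hcard
      have hLn : 0 < L' ^ n := by positivity
      have h1 : c3 * (1 - r) ^ n ≤ (T.card : ℝ) * ballVol n (r / 2) := by
        rw [e1, ← mul_div_assoc, le_div_iff₀ hLn]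
        linarith
      have h2 : 1 - n * r ≤ (1 - r) ^ n := by
        have := one_add_mul_le_pow (a := -r) (by linarith) n
        rw [mul_neg, ← sub_eq_add_neg, ← sub_eq_add_neg] at this
        exact this
      have h3 : c ≤ c3 * (1 - n * r) := by linarith
      exact h3.trans ((mul_le_mul_of_nonneg_left h2 hc30.le).trans h1)

end Pool.Agent.N27.HG
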